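import Pool.Agent.Lib_helper32.JO.N0
import Pool.Agent.Lib_helper87.JO.L2

/-!
# Project JO, part B1, block HOL: the local data of holomorphic forms (helper12)
-/

set_option autoImplicit false

namespace Pool.Agent.JO

open Complex MeasureTheory Filter Topology
open UpperHalfPlane hiding I
open scoped MatrixGroups ComplexConjugate ENNReal

/-! ### the measure of the upper half plane (after Lib_helper58/JOS/Base.lean) -/

theorem hol_lint_H (F : ℂ → ℝ≥0∞) :
    ∫⁻ w : ℍ, F w = ∫⁻ z in {z : ℂ | 0 < z.im}, F z * ENNReal.ofReal (1 / z.im ^ 2) := by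
  have hrange : Set.range UpperHalfPlane.coe = {z : ℂ | 0 < z.im} := by
    ext z
    constructor
    · rintro ⟨w, rfl⟩
      exact w.im_pos
    · intro hz
      exact ⟨⟨z, hz⟩, rfl⟩
  rw [UpperHalfPlane.volume_def]
  rw [lintegral_withDensity_eq_lintegral_mul_non_measurable]
  · have h1 := UpperHalfPlane.measurableEmbedding_coe.lintegral_map
      (μ := volume.comap UpperHalfPlane.coe)
      (f := fun z : ℂ => F z * ENNReal.ofReal (1 / z.im ^ 2))
    rw [UpperHalfPlane.measurableEmbedding_coe.map_comap, hrange] at h1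
    rw [h1]
    apply lintegral_congr
    intro w
    rw [Pi.mul_apply, mul_comm]
    congr 1
    rw [ENNReal.coe_nnreal_eq]
    congr 1
    push_cast
    rw [div_pow, one_pow]
    rfl
  · have h2 : Continuous (fun z : ℍ => (1 / NNReal.mk z.im z.im_pos.le : NNReal) ^ 2) := by
      refine .pow (.div₀ continuous_const ?_ ?_) _
      · exact UpperHalfPlane.continuous_im.subtype_mk _
      · exact fun x ↦ NNReal.ne_iff.mp x.im_ne_zero
    exact h2.measurable.coe_nnreal_ennreal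
  · exact Eventually.of_forall (fun z => ENNReal.coe_lt_top)

theorem hol_box {X : Set ℝ} (hX : MeasurableSet X) {h : ℝ × ℝ → ℝ≥0∞} (hh : Measurable h)
    {R : Set ℍ} (hR : ∀ w : ℍ, w.re ∈ X → w.im ∈ Set.Icc (1 : ℝ) 2 → w ∈ R) :
    ∫⁻ x in X, ∫⁻ v in Set.Icc (1 : ℝ) 2, h (x, v) * ENNReal.ofReal (1 / v ^ 2) ≤
      ∫⁻ w in R, h (w.re, w.im) := by
  set B : Set ℂ := {z : ℂ | z.re ∈ X ∧ z.im ∈ Set.Icc (1 : ℝ) 2} with hB
  have hBm : MeasurableSet B :=
    (measurable_re hX).inter (measurable_im measurableSet_Icc)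
  set BH : Set ℍ := {w : ℍ | (w : ℂ) ∈ B} with hBH
  have hBHm : MeasurableSet BH := UpperHalfPlane.measurableEmbedding_coe.measurable hBm
  have hsub : BH ⊆ R := fun w hw => hR w hw.1 hw.2
  refine le_trans ?_ (lintegral_mono_set hsub)
  have h1 : ∫⁻ w in BH, h (w.re, w.im) = ∫⁻ w : ℍ, (B.indicator (fun z : ℂ => h (z.re, z.im))) w := by
    rw [← lintegral_indicator hBHm]
    apply lintegral_congr
    intro w
    by_cases hw : w ∈ BH
    · rw [Set.indicator_of_mem hw, Set.indicator_of_mem (by exact hw)]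
      rfl
    · rw [Set.indicator_of_notMem hw, Set.indicator_of_notMem (by exact hw)]
  rw [h1, hol_lint_H]
  have hms : MeasurableSet {z : ℂ | 0 < z.im} :=
    (isOpen_lt continuous_const Complex.continuous_im).measurableSet
  rw [← lintegral_indicator hms]
  have h2 : ∀ z : ℂ, ({z : ℂ | 0 < z.im}.indicator
      (fun z => B.indicator (fun z : ℂ => h (z.re, z.im)) z * ENNReal.ofReal (1 / z.im ^ 2))) z =
      (fun p : ℝ × ℝ => (X ×ˢ Set.Icc (1 : ℝ) 2).indicator
        (fun p : ℝ × ℝ => h p * ENNReal.ofReal (1 / p.2 ^ 2)) p)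
        (Complex.measurableEquivRealProd z) := by
    intro z
    have hz2 : Complex.measurableEquivRealProd z = (z.re, z.im) := rfl
    rw [hz2]
    by_cases hz : z ∈ B
    · have h3 : z ∈ {z : ℂ | 0 < z.im} := lt_of_lt_of_le one_pos hz.2.1
      have h4 : ((z.re, z.im) : ℝ × ℝ) ∈ X ×ˢ Set.Icc (1 : ℝ) 2 := hz
      rw [Set.indicator_of_mem h3, Set.indicator_of_mem hz]
      simp only [Set.indicator_of_mem h4]
    · have h4 : ((z.re, z.im) : ℝ × ℝ) ∉ X ×ˢ Set.Icc (1 : ℝ) 2 := hz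
      simp only [Set.indicator_of_notMem h4]
      by_cases h3 : z ∈ {z : ℂ | 0 < z.im}
      · rw [Set.indicator_of_mem h3, Set.indicator_of_notMem hz, zero_mul]
      · rw [Set.indicator_of_notMem h3]
  rw [lintegral_congr h2]
  have hm1 : Measurable (fun p : ℝ × ℝ => h p * ENNReal.ofReal (1 / p.2 ^ 2)) := by
    refine hh.mul (ENNReal.measurable_ofReal.comp ?_)
    fun_prop
  rw [Complex.volume_preserving_equiv_real_prod.lintegral_comp
    (hm1.indicator (hX.prod measurableSet_Icc)),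
    lintegral_indicator (hX.prod measurableSet_Icc), Measure.volume_eq_prod,
    ← Measure.prod_restrict, lintegral_prod _ hm1.aemeasurable]

/-! ### the local factor -/

theorem hol_hY (k : ℕ) (w : ℍ) (s : ℂ) :
    hY k w s = Pool.Agent.JOL.locY k w.im w.re (-s) := by
  unfold hY Pool.Agent.JOL.locY
  push_cast
  rw [sub_eq_add_neg]

theorem hol_base (w : ℍ) : 0 < (1 + (w.im : ℂ) + I * w.re).re := by
  have := w.im_pos
  simp
  linarith

theorem hol_base_ne (w : ℍ) : (2 / (1 + (w.im : ℂ) + I * w.re)) ≠ 0 := by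
  have h := hol_base w
  refine div_ne_zero two_ne_zero ?_
  intro h0
  rw [h0] at h
  simp at h

theorem hol_diff (k : ℕ) (w : ℍ) : Differentiable ℂ (hY k w) := by
  unfold hY
  have h := hol_base_ne w
  intro s
  refine DifferentiableAt.const_mul ?_ _
  exact DifferentiableAt.const_cpow (by fun_prop) (Or.inl h)

theorem hol_one (k : ℕ) (s : ℂ) : hY k UpperHalfPlane.I s = 1 := by
  unfold hY
  have h1 : (2 / (1 + ((UpperHalfPlane.I : ℍ).im : ℂ) + I * (UpperHalfPlane.I : ℍ).re)) = 1 := by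
    rw [UpperHalfPlane.I_im, UpperHalfPlane.I_re]
    norm_num
  rw [h1, Complex.one_cpow, UpperHalfPlane.I_im, Real.one_rpow]
  simp

theorem hol_meas (k : ℕ) : Measurable fun q : ℍ × ℝ => hY k q.1 ((1 / 2 : ℝ) + (q.2 : ℂ) * I) := by
  unfold hY
  have him : Measurable fun q : ℍ × ℝ => q.1.im :=
    UpperHalfPlane.continuous_im.measurable.comp measurable_fst
  have hre : Measurable fun q : ℍ × ℝ => q.1.re :=
    UpperHalfPlane.continuous_re.measurable.comp measurable_fst
  refine Measurable.mul ?_ ?_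
  · exact Complex.measurable_ofReal.comp (him.pow_const _)
  · refine Measurable.pow ?_ ?_
    · have h1 : Measurable fun q : ℍ × ℝ => (q.1.im : ℂ) := Complex.measurable_ofReal.comp him
      have h2 : Measurable fun q : ℍ × ℝ => (q.1.re : ℂ) := Complex.measurable_ofReal.comp hre
      fun_prop
    · have h1 : Measurable fun q : ℍ × ℝ => (q.2 : ℂ) :=
        Complex.measurable_ofReal.comp measurable_snd
      fun_prop

theorem hol_fLoc {k : ℕ} (w : ℍ) {y : ℝ} (hy : 0 < y) : fLoc (hW k) 1 w y =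
    (y : ℂ) ^ (k : ℂ) * (((w.im ^ ((k : ℝ) / 2) : ℝ) : ℂ) *
      cexp (-(2 * Real.pi * (1 : ℝ) * (1 + w.im + I * w.re) * y))) := by
  have hv := w.im_pos
  unfold fLoc hW
  rw [Complex.conj_ofReal]
  have h1 : (y : ℂ) ^ (k : ℂ) = ((y ^ ((k : ℝ) / 2) * y ^ ((k : ℝ) / 2) : ℝ) : ℂ) := by
    rw [← Real.rpow_add hy, add_halves, Complex.ofReal_cpow hy.le]
    simp
  rw [h1, Real.mul_rpow hv.le hy.le]
  have h2 : cexp (-(2 * Real.pi * (1 : ℝ) * (1 + w.im + I * w.re) * y)) =
      ((Real.exp (-(2 * Real.pi * y)) * Real.exp (-(2 * Real.pi * (w.im * y))) : ℝ) : ℂ) *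
        cexp (-(2 * Real.pi * I * (1 * w.re * y : ℝ))) := by
    push_cast
    rw [← Complex.exp_add, ← Complex.exp_add]
    congr 1
    ring
  rw [h2]
  push_cast
  ring

theorem hol_mellin {k : ℕ} (hk : 1 ≤ k) (w : ℍ) {s : ℂ} (hs : s.re < 1 / 2) :
    hY k w s = ((4 * Real.pi : ℝ) : ℂ) ^ ((k : ℂ) - s) * (Complex.Gamma ((k : ℂ) - s))⁻¹ *
      mellin (fLoc (hW k) 1 w) (-s) := by
  have hv := w.im_pos
  have hk' : (1 : ℝ) ≤ k := by exact_mod_cast hk
  have hre : 0 < ((k : ℂ) + -s).re := by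
    simp
    linarith
  have hcast : ((k : ℝ) : ℂ) = (k : ℂ) := by simp
  have hre' : 0 < (((k : ℝ) : ℂ) + -s).re := by rw [hcast]; exact hre
  have h1 := Pool.Agent.JOL.locY_mellin (k := k) (n := 1) one_pos hv w.re hre'
  have h2 : mellin (fLoc (hW k) 1 w) (-s) =
      ∫ y in Set.Ioi (0 : ℝ), (y : ℂ) ^ (((k : ℝ) : ℂ) + -s - 1) *
        (((w.im ^ ((k : ℝ) / 2) : ℝ) : ℂ) *
          cexp (-(2 * Real.pi * (1 : ℝ) * (1 + w.im + I * w.re) * y))) := by
    unfold mellin
    refine setIntegral_congr_fun measurableSet_Ioi fun y hy => ?_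
    have hy0 : (0 : ℝ) < y := hy
    have hy1 : (y : ℂ) ≠ 0 := by exact_mod_cast hy0.ne'
    rw [hol_fLoc w hy0, smul_eq_mul, ← mul_assoc, ← Complex.cpow_add _ _ hy1, hcast]
    congr 2
    ring
  rw [h2, h1, hol_hY]
  have h3 : ∫ y in Set.Ioi (0 : ℝ), (y : ℂ) ^ (((k : ℝ) : ℂ) + -s - 1) *
      cexp (-(4 * Real.pi * (1 : ℝ) * y)) =
      (1 / ((4 * Real.pi : ℝ) : ℂ)) ^ ((k : ℂ) + -s) * Complex.Gamma ((k : ℂ) + -s) := by
    have hr : 0 < (((4 * Real.pi : ℝ)) : ℂ).re := by
      rw [Complex.ofReal_re]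
      positivity
    rw [← Pool.Agent.JOL.gg_integral hre hr, hcast]
    refine setIntegral_congr_fun measurableSet_Ioi fun y hy => ?_
    congr 2
    push_cast
    ring
  rw [h3]
  have h4 : Complex.Gamma ((k : ℂ) + -s) ≠ 0 := Complex.Gamma_ne_zero_of_re_pos hre
  have h5 : ((4 * Real.pi : ℝ) : ℂ) ^ ((k : ℂ) + -s) *
      (1 / ((4 * Real.pi : ℝ) : ℂ)) ^ ((k : ℂ) + -s) = 1 := by
    have hp : (0 : ℝ) < 4 * Real.pi := by positivity
    have h6 : (1 / ((4 * Real.pi : ℝ) : ℂ)) = ((1 / (4 * Real.pi) : ℝ) : ℂ) := by push_cast; ring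
    rw [h6, ← Complex.mul_cpow_ofReal_nonneg hp.le (by positivity), ← Complex.ofReal_mul,
      mul_one_div_cancel hp.ne', Complex.ofReal_one, Complex.one_cpow]
  rw [sub_eq_add_neg]
  have h6 : ((4 * Real.pi : ℝ) : ℂ) ^ ((k : ℂ) + -s) * (Complex.Gamma ((k : ℂ) + -s))⁻¹ *
      (Pool.Agent.JOL.locY (k : ℝ) w.im w.re (-s) *
        ((1 / ((4 * Real.pi : ℝ) : ℂ)) ^ ((k : ℂ) + -s) * Complex.Gamma ((k : ℂ) + -s))) =
      (((4 * Real.pi : ℝ) : ℂ) ^ ((k : ℂ) + -s) *
        (1 / ((4 * Real.pi : ℝ) : ℂ)) ^ ((k : ℂ) + -s)) *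
      ((Complex.Gamma ((k : ℂ) + -s))⁻¹ * Complex.Gamma ((k : ℂ) + -s)) *
      Pool.Agent.JOL.locY (k : ℝ) w.im w.re (-s) := by ring
  rw [h6, h5, inv_mul_cancel₀ h4]
  ring

theorem hol_cosh (w : ℍ) : Real.cosh (dist UpperHalfPlane.I w) =
    (1 + w.re ^ 2 + w.im ^ 2) / (2 * w.im) := by
  have hv := w.im_pos
  rw [UpperHalfPlane.cosh_dist]
  have h1 : dist ((UpperHalfPlane.I : ℍ) : ℂ) (w : ℂ) ^ 2 = w.re ^ 2 + (w.im - 1) ^ 2 := by
    rw [Complex.dist_eq, ← Complex.normSq_eq_norm_sq, Complex.normSq_apply]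
    simp
    ring
  rw [h1, UpperHalfPlane.I_im]
  field_simp
  ring

theorem hol_reg {K : ℝ} (hK : 1 ≤ K) (w : ℍ) (hx1 : K ^ 2 ≤ w.re ^ 2) (hx2 : w.re ^ 2 ≤ 4 * K ^ 2)
    (hv : w.im ∈ Set.Icc (1 : ℝ) 2) : w ∈ Reg K := by
  obtain ⟨hv1, hv2⟩ := hv
  have hv := w.im_pos
  constructor
  · rw [hol_cosh, le_div_iff₀ (by positivity)]
    nlinarith
  · rw [hol_cosh, div_le_iff₀ (by positivity)]
    nlinarith

theorem hol_lower {k : ℕ} (hk : 1 ≤ k) : ∃ c K₀ : ℝ, 0 < c ∧ 1 ≤ K₀ ∧ ∀ K : ℝ, K₀ ≤ K →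
    ∀ κ : ℝ, K ≤ |κ| → |κ| ≤ 2 * K →
    ENNReal.ofReal (c * K ^ (2 - 2 * (k : ℝ)) * Real.exp (Real.pi * |κ|)) ≤
      ∫⁻ w in Reg K, ENNReal.ofReal (‖hY k w ((1 / 2 : ℝ) + (κ : ℂ) * I)‖ ^ 2) := by
  have hk' : (1 : ℝ) ≤ k := by exact_mod_cast hk
  refine ⟨Real.exp (-12) * (4 / 13) ^ ((k : ℝ) + (-1 / 2 : ℝ)) / 4, 1, by positivity, le_rfl,
    fun K hK κ h1 h2 => ?_⟩
  have hmeas : ∀ s : ℂ, Measurable fun p : ℝ × ℝ =>
      ENNReal.ofReal (‖Pool.Agent.JOL.locY k p.2 p.1 s‖ ^ 2) := by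
    intro s
    refine ENNReal.measurable_ofReal.comp ?_
    refine Measurable.pow_const ?_ 2
    refine Measurable.norm ?_
    unfold Pool.Agent.JOL.locY
    refine Measurable.mul ?_ ?_
    · exact Complex.measurable_ofReal.comp (measurable_snd.pow_const _)
    · refine Measurable.pow_const ?_ _
      have h1 : Measurable fun q : ℝ × ℝ => (q.1 : ℂ) :=
        Complex.measurable_ofReal.comp measurable_fst
      have h2 : Measurable fun q : ℝ × ℝ => (q.2 : ℂ) :=
        Complex.measurable_ofReal.comp measurable_snd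
      fun_prop
  have hexp : (2 : ℝ) - 2 * (k : ℝ) = 1 - 2 * ((k : ℝ) + (-1 / 2 : ℝ)) := by ring
  have hlow := Pool.Agent.JOL.le_lintegral_locY (k := (k : ℝ)) (K := K) (σ := (-1 / 2 : ℝ))
    (κ := |κ|) (by linarith) (by linarith) hK ⟨h1, h2⟩
  rw [hexp]
  refine hlow.trans ?_
  rcases le_or_gt 0 κ with hκ | hκ
  · -- `κ ≥ 0`: reflect
    rw [abs_of_nonneg hκ]
    have hb := hol_box (X := Set.Icc (-(2 * K)) (-K)) measurableSet_Icc
      (hmeas ((-1 / 2 : ℝ) + (-κ : ℝ) * I)) (R := Reg K) (by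
        intro w hx hv
        refine hol_reg hK w ?_ ?_ hv
        · nlinarith [hx.1, hx.2]
        · nlinarith [hx.1, hx.2])
    have he : ∀ w : ℍ, ENNReal.ofReal (‖hY k w ((1 / 2 : ℝ) + (κ : ℂ) * I)‖ ^ 2) =
        ENNReal.ofReal (‖Pool.Agent.JOL.locY k w.im w.re ((-1 / 2 : ℝ) + (-κ : ℝ) * I)‖ ^ 2) := by
      intro w
      rw [hol_hY]
      congr 4
      push_cast
      ring
    simp_rw [he]
    refine le_trans (le_of_eq ?_) hb
    have hrefl : ∀ G : ℝ → ℝ≥0∞, ∫⁻ x in Set.Icc (-(2 * K)) (-K), G x =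
        ∫⁻ x in Set.Icc K (2 * K), G (-x) := by
      intro G
      have h := (Measure.measurePreserving_neg (volume : Measure ℝ)).setLIntegral_comp_preimage_emb
        (MeasurableEquiv.neg ℝ).measurableEmbedding G (Set.Icc (-(2 * K)) (-K))
      rw [← h]
      congr 2
      ext x
      simp only [Set.mem_preimage, Set.mem_Icc]
      constructor
      · rintro ⟨h1, h2⟩
        constructor <;> linarith
      · rintro ⟨h1, h2⟩
        constructor <;> linarith
    rw [hrefl]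
    refine setLIntegral_congr_fun measurableSet_Icc fun x hx => ?_
    refine setLIntegral_congr_fun measurableSet_Icc fun v hv => ?_
    have hv0 : 0 < v := lt_of_lt_of_le one_pos hv.1
    simp only
    rw [← ENNReal.ofReal_mul (by positivity), Pool.Agent.JOL.norm_locY_neg hv0]
    congr 1
    ring
  · rw [abs_of_neg hκ]
    have hb := hol_box (X := Set.Icc K (2 * K)) measurableSet_Icc
      (hmeas ((-1 / 2 : ℝ) + (-κ : ℝ) * I)) (R := Reg K) (by
        intro w hx hv
        refine hol_reg hK w ?_ ?_ hv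
        · nlinarith [hx.1, hx.2]
        · nlinarith [hx.1, hx.2])
    have he : ∀ w : ℍ, ENNReal.ofReal (‖hY k w ((1 / 2 : ℝ) + (κ : ℂ) * I)‖ ^ 2) =
        ENNReal.ofReal (‖Pool.Agent.JOL.locY k w.im w.re ((-1 / 2 : ℝ) + (-κ : ℝ) * I)‖ ^ 2) := by
      intro w
      rw [hol_hY]
      congr 4
      push_cast
      ring
    simp_rw [he]
    refine le_trans (le_of_eq ?_) hb
    refine setLIntegral_congr_fun measurableSet_Icc fun x hx => ?_
    refine setLIntegral_congr_fun measurableSet_Icc fun v hv => ?_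
    have hv0 : 0 < v := lt_of_lt_of_le one_pos hv.1
    simp only
    rw [← ENNReal.ofReal_mul (by positivity)]
    congr 1
    ring

theorem locData_hol_pr {k : ℕ} (hk : 1 ≤ k) :
    LocData k (hW k) (fun _ => 0) (hY k) (fun _ _ => 0) where
  cp := by
    intro y hy
    unfold hW
    have hy0 : (0 : ℝ) < y := hy
    refine ContinuousAt.continuousWithinAt ?_
    refine Complex.continuous_ofReal.continuousAt.comp ?_
    refine ContinuousAt.mul ?_ (by fun_prop)
    exact Real.continuousAt_rpow_const _ _ (Or.inl hy0.ne')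
  cm := continuousOn_const
  sqp := by
    intro σ hσ
    have hk' : (1 : ℝ) ≤ k := by exact_mod_cast hk
    have h := Pool.Agent.JOL.gg_int (x := (k : ℝ) + σ) (c := 4 * Real.pi) (by linarith)
      (by positivity)
    refine h.congr_fun (fun y hy => ?_) measurableSet_Ioi
    have hy0 : (0 : ℝ) < y := hy
    simp only
    unfold hW
    rw [Complex.norm_real, Real.norm_of_nonneg (by positivity), mul_pow, ← Real.exp_nat_mul,
      ← Real.rpow_natCast (y ^ ((k : ℝ) / 2)), ← Real.rpow_mul hy0.le, add_sub_assoc,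
      Real.rpow_add hy0]
    have e1 : (k : ℝ) / 2 * ((2 : ℕ) : ℝ) = k := by push_cast; ring
    have e2 : ((2 : ℕ) : ℝ) * -(2 * Real.pi * y) = -(4 * Real.pi * y) := by push_cast; ring
    rw [e1, e2]
    ring
  sqm := by
    intro σ hσ
    simp
  cont := by
    refine ⟨-1, fun s => ((4 * Real.pi : ℝ) : ℂ) ^ ((k : ℂ) - s) *
      (Complex.Gamma ((k : ℂ) - s))⁻¹, by norm_num, ?_, ?_, ?_⟩
    · have hp : ((4 * Real.pi : ℝ) : ℂ) ≠ 0 := by
        exact_mod_cast (by positivity : (4 * Real.pi : ℝ) ≠ 0)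
      intro s _
      refine DifferentiableAt.differentiableWithinAt ?_
      refine DifferentiableAt.mul ?_ ?_
      · exact DifferentiableAt.const_cpow (by fun_prop) (Or.inl hp)
      · have h1 : DifferentiableAt ℂ (fun s : ℂ => (Complex.Gamma s)⁻¹) ((k : ℂ) - s) :=
          Complex.differentiable_one_div_Gamma _
        exact DifferentiableAt.comp (g := fun s : ℂ => (Complex.Gamma s)⁻¹)
          (f := fun s : ℂ => (k : ℂ) - s) s h1 (by fun_prop)
    · intro s hs
      have hp : ((4 * Real.pi : ℝ) : ℂ) ≠ 0 := by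
        exact_mod_cast (by positivity : (4 * Real.pi : ℝ) ≠ 0)
      refine mul_ne_zero ?_ (inv_ne_zero (Complex.Gamma_ne_zero_of_re_pos ?_))
      · exact (Complex.cpow_ne_zero_iff_of_exponent_ne_zero (by
          intro h0
          have := congrArg Complex.re h0
          simp at this
          have hk' : (0 : ℝ) ≤ k := by positivity
          linarith)).2 hp
      · simp
        have hk' : (0 : ℝ) ≤ k := by positivity
        linarith
    · intro w
      refine ⟨fun s hs => hol_mellin hk w (by linarith), fun s hs => ?_⟩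
      have h0 : fLoc (fun _ => 0) (-1) w = fun _ => 0 := by
        funext y
        simp [fLoc]
      rw [h0]
      simp [mellin]
  anp := fun w => (hol_diff k w).differentiableOn
  anm := fun w => by simp
  bdp := fun w κ => (hol_diff k w).continuous.continuousWithinAt
  bdm := fun w κ => continuousWithinAt_const
  measp := hol_meas k
  measm := measurable_const
  inv := by
    intro S hS hI
    refine ⟨1, fun _ => UpperHalfPlane.I, fun _ _ => 1, fun _ _ => 0, fun _ => 1, fun _ => hI,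
      fun _ => differentiableOn_const _, fun _ => differentiableOn_const _,
      differentiableOn_const _, fun _ _ => continuousWithinAt_const,
      fun _ _ => continuousWithinAt_const, fun _ => continuousWithinAt_const,
      Eventually.of_forall fun _ => one_ne_zero, fun w s _ => ?_, fun w s _ => ?_⟩
    · simp [hol_one]
    · simp
  lower := by
    obtain ⟨c, K₀, hc, hK₀, h⟩ := hol_lower hk
    refine ⟨c, K₀, hc, hK₀, fun K hK κ h1 h2 Dp Dm => ?_⟩
    simp only [mul_zero, add_zero, hol_one, mul_one, norm_mul, mul_pow]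
    have hD : 0 ≤ ‖Dp‖ ^ 2 := by positivity
    have e1 : ∀ w : ℍ, ENNReal.ofReal (‖Dp‖ ^ 2 * ‖hY k w ((1 / 2 : ℝ) + (κ : ℂ) * I)‖ ^ 2) =
        ENNReal.ofReal (‖Dp‖ ^ 2) *
          ENNReal.ofReal (‖hY k w ((1 / 2 : ℝ) + (κ : ℂ) * I)‖ ^ 2) := fun w =>
      ENNReal.ofReal_mul hD
    simp_rw [e1]
    rw [lintegral_const_mul' _ _ ENNReal.ofReal_ne_top, mul_comm (c * _ * _),
      ENNReal.ofReal_mul hD]
    exact mul_le_mul_right (h K hK κ h1 h2) _

end Pool.Agent.JO
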