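import Pool.Agent.Lib_helper32.JO.N0

/-!
# Project JO, part B1, block POL: polar coordinates and Plancherel (helper12)
-/

set_option autoImplicit false

namespace Pool.Agent.JO

open Complex MeasureTheory Filter Topology
open UpperHalfPlane hiding I
open scoped MatrixGroups ComplexConjugate ENNReal

theorem pol_xa_meas : Measurable fun q : ℝ × ℝ => xa q.1 q.2 := by
  unfold xa
  refine Measurable.div ?_ ?_
  · refine Measurable.const_mul ?_ _
    refine Complex.measurable_exp.comp ?_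
    exact (Complex.measurable_ofReal.comp measurable_fst).mul_const _
  · refine Complex.measurable_ofReal.comp ?_
    exact Real.continuous_sqrt.measurable.comp measurable_snd

theorem pol_xa_meas2 (a : ℝ) : Measurable fun y : ℝ => xa a y := by
  unfold xa
  fun_prop

/-- the rotation by `-i` -/
theorem pol_rot (g : ℂ → ℝ≥0∞) : ∫⁻ x : ℂ, g x = ∫⁻ x : ℂ, g (-I * x) := by
  have hI : (-I) ∈ Submonoid.unitSphere ℂ := by
    rw [← SetLike.mem_coe, Submonoid.coe_unitSphere, mem_sphere_zero_iff_norm]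
    simp
  have h := (rotation ⟨-I, hI⟩).measurePreserving
  have h2 := h.lintegral_comp_emb (rotation ⟨-I, hI⟩).toHomeomorph.measurableEmbedding g
  rw [← h2]
  rfl

/-- the substitution `r = 1/√y` -/
theorem pol_sub (φ : ℝ → ℝ≥0∞) : ∫⁻ r in Set.Ioi (0 : ℝ), ENNReal.ofReal r * φ r =
    ∫⁻ y in Set.Ioi (0 : ℝ), ENNReal.ofReal (1 / (2 * y ^ 2)) * φ (1 / √y) := by
  have himg : (fun y : ℝ => y ^ (-1 / 2 : ℝ)) '' Set.Ioi 0 = Set.Ioi 0 := by
    ext r
    constructor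
    · rintro ⟨y, hy, rfl⟩
      exact Real.rpow_pos_of_pos hy _
    · intro hr
      have hr0 : (0 : ℝ) < r := hr
      refine ⟨r ^ (-2 : ℝ), Real.rpow_pos_of_pos hr0 _, ?_⟩
      simp only
      rw [← Real.rpow_mul hr0.le]
      norm_num
  have hder : ∀ y ∈ Set.Ioi (0 : ℝ), HasDerivWithinAt (fun y : ℝ => y ^ (-1 / 2 : ℝ))
      ((-1 / 2 : ℝ) * y ^ ((-1 / 2 : ℝ) - 1)) (Set.Ioi 0) y := by
    intro y hy
    exact (Real.hasDerivAt_rpow_const (Or.inl (ne_of_gt hy))).hasDerivWithinAt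
  have hinj : Set.InjOn (fun y : ℝ => y ^ (-1 / 2 : ℝ)) (Set.Ioi 0) := by
    intro x hx y hy h
    have hx0 : (0 : ℝ) < x := hx
    have hy0 : (0 : ℝ) < y := hy
    have h2 := congrArg (fun t : ℝ => t ^ (-2 : ℝ)) h
    simp only at h2
    rw [← Real.rpow_mul hx0.le, ← Real.rpow_mul hy0.le] at h2
    norm_num at h2
    exact h2
  have h := lintegral_image_eq_lintegral_abs_deriv_mul measurableSet_Ioi hder hinj
    (fun r => ENNReal.ofReal r * φ r)
  rw [himg] at h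
  rw [h]
  refine setLIntegral_congr_fun measurableSet_Ioi fun y hy => ?_
  have hy0 : (0 : ℝ) < y := hy
  have e1 : y ^ (-1 / 2 : ℝ) = 1 / √y := by
    rw [Real.sqrt_eq_rpow, one_div, ← Real.rpow_neg hy0.le]
    norm_num
  have e2 : |(-1 / 2 : ℝ) * y ^ ((-1 / 2 : ℝ) - 1)| * y ^ (-1 / 2 : ℝ) = 1 / (2 * y ^ 2) := by
    rw [abs_mul, abs_of_pos (Real.rpow_pos_of_pos hy0 _), mul_assoc, ← Real.rpow_add hy0]
    have e3 : ((-1 / 2 : ℝ) - 1 + -1 / 2) = -2 := by norm_num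
    rw [e3, Real.rpow_neg hy0.le]
    norm_num
    field_simp
  rw [← mul_assoc, ← ENNReal.ofReal_mul (abs_nonneg _), e2, e1]

theorem pol_lint_pr {g : ℂ → ℝ≥0∞} (hg : Measurable g) :
    ∫⁻ x : ℂ, g x = ∫⁻ a in Set.Ioc 0 (2 * Real.pi), ∫⁻ y in Set.Ioi (0 : ℝ),
      ENNReal.ofReal (1 / (2 * y ^ 2)) * g (xa a y) := by
  have hgm : Measurable fun p : ℝ × ℝ => g (-I * (p.1 * cexp (p.2 * I))) := by
    refine hg.comp ?_
    refine Measurable.const_mul ?_ _
    refine (Complex.measurable_ofReal.comp measurable_fst).mul ?_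
    refine Complex.measurable_exp.comp ?_
    exact (Complex.measurable_ofReal.comp measurable_snd).mul_const _
  have hjm : Measurable fun p : ℝ × ℝ =>
      ENNReal.ofReal p.1 * g (-I * (p.1 * cexp (p.2 * I))) :=
    (ENNReal.measurable_ofReal.comp measurable_fst).mul hgm
  rw [pol_rot, ← Complex.lintegral_comp_polarCoord_symm]
  have h1 : ∀ p : ℝ × ℝ, ENNReal.ofReal p.1 • g (-I * Complex.polarCoord.symm p) =
      ENNReal.ofReal p.1 * g (-I * (p.1 * cexp (p.2 * I))) := by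
    intro p
    rw [smul_eq_mul, Complex.polarCoord_symm_apply, Complex.exp_mul_I]
    norm_cast
  simp_rw [h1]
  rw [polarCoord_target, Measure.volume_eq_prod, ← Measure.prod_restrict,
    lintegral_prod_symm' _ hjm]
  -- shift the angle
  have h2 : ∀ H : ℝ → ℝ≥0∞, ∫⁻ a in Set.Ioo (-Real.pi) Real.pi, H a =
      ∫⁻ a in Set.Ioc 0 (2 * Real.pi), H (a - Real.pi) := by
    intro H
    have h := (measurePreserving_sub_right (volume : Measure ℝ) Real.pi).setLIntegral_comp_preimage_emb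
      (MeasurableEquiv.subRight Real.pi).measurableEmbedding H (Set.Ioo (-Real.pi) Real.pi)
    rw [← h]
    have h3 : (fun x : ℝ => x - Real.pi) ⁻¹' Set.Ioo (-Real.pi) Real.pi =
        Set.Ioo 0 (2 * Real.pi) := by
      ext x
      simp only [Set.mem_preimage, Set.mem_Ioo]
      constructor
      · rintro ⟨h1, h2⟩
        constructor <;> linarith
      · rintro ⟨h1, h2⟩
        constructor <;> linarith
    rw [h3, restrict_Ioo_eq_restrict_Ioc]
  rw [h2]
  refine lintegral_congr fun a => ?_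
  rw [pol_sub (fun r => g (-I * (r * cexp (((a - Real.pi : ℝ) : ℂ) * I))))]
  refine setLIntegral_congr_fun measurableSet_Ioi fun y hy => ?_
  congr 2
  unfold xa
  have h4 : cexp (((a - Real.pi : ℝ) : ℂ) * I) = - cexp (a * I) := by
    push_cast
    rw [sub_mul, Complex.exp_sub, Complex.exp_pi_mul_I]
    ring
  rw [h4]
  push_cast
  ring

theorem pol_mel_pr {c : ℂ → ℂ} (hc : Measurable c) (hsq : Integrable fun x => ‖c x‖ ^ 2)
    (hb : ∃ B : ℝ, ∀ x, ‖c x‖ ≤ B) :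
    (∀ᵐ a ∂(volume.restrict (Set.Ioc 0 (2 * Real.pi))), MelOK fun y => c (xa a y)) ∧
    ∫⁻ a in Set.Ioc 0 (2 * Real.pi), ∫⁻ κ : ℝ,
        ENNReal.ofReal (‖melL2 (fun y => c (xa a y)) κ‖ ^ 2) =
      ENNReal.ofReal (4 * Real.pi * ∫ x, ‖c x‖ ^ 2) := by
  obtain ⟨B, hB⟩ := hb
  have hgm : Measurable fun x : ℂ => ENNReal.ofReal (‖c x‖ ^ 2) :=
    ENNReal.measurable_ofReal.comp (hc.norm.pow_const 2)
  have h1 := pol_lint_pr hgm
  have h2 : ∫⁻ x : ℂ, ENNReal.ofReal (‖c x‖ ^ 2) = ENNReal.ofReal (∫ x, ‖c x‖ ^ 2) :=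
    (ofReal_integral_eq_lintegral_ofReal hsq (Eventually.of_forall fun x => by positivity)).symm
  have hja : Measurable fun q : ℝ × ℝ => ENNReal.ofReal (1 / (2 * q.2 ^ 2)) := by
    have h0 : Measurable fun q : ℝ × ℝ => 1 / (2 * q.2 ^ 2) := by fun_prop
    exact ENNReal.measurable_ofReal.comp h0
  have hjb : Measurable fun q : ℝ × ℝ => ENNReal.ofReal (‖c (xa q.1 q.2)‖ ^ 2) :=
    hgm.comp pol_xa_meas
  have hjm : Measurable fun q : ℝ × ℝ => ENNReal.ofReal (1 / (2 * q.2 ^ 2)) *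
      ENNReal.ofReal (‖c (xa q.1 q.2)‖ ^ 2) := hja.mul hjb
  have him : Measurable fun a : ℝ => ∫⁻ y in Set.Ioi (0 : ℝ),
      ENNReal.ofReal (1 / (2 * y ^ 2)) * ENNReal.ofReal (‖c (xa a y)‖ ^ 2) :=
    Measurable.lintegral_prod_right' (f := fun q : ℝ × ℝ => ENNReal.ofReal (1 / (2 * q.2 ^ 2)) *
      ENNReal.ofReal (‖c (xa q.1 q.2)‖ ^ 2)) hjm
  have hfin : ∀ᵐ a ∂(volume.restrict (Set.Ioc 0 (2 * Real.pi))), ∫⁻ y in Set.Ioi (0 : ℝ),
      ENNReal.ofReal (1 / (2 * y ^ 2)) * ENNReal.ofReal (‖c (xa a y)‖ ^ 2) < ∞ := by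
    refine ae_lt_top him ?_
    rw [← h1, h2]
    exact ENNReal.ofReal_ne_top
  have hmx : ∀ a : ℝ, Measurable fun y => c (xa a y) := fun a => hc.comp (pol_xa_meas2 a)
  have hkey : ∀ a : ℝ, ∫⁻ y in Set.Ioi (0 : ℝ), ENNReal.ofReal (‖c (xa a y)‖ ^ 2 / y ^ 2) =
      ENNReal.ofReal 2 * ∫⁻ y in Set.Ioi (0 : ℝ),
      ENNReal.ofReal (1 / (2 * y ^ 2)) * ENNReal.ofReal (‖c (xa a y)‖ ^ 2) := by
    intro a
    rw [← lintegral_const_mul' _ _ ENNReal.ofReal_ne_top]
    refine lintegral_congr fun y => ?_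
    rw [← ENNReal.ofReal_mul (by positivity), ← ENNReal.ofReal_mul (by norm_num)]
    congr 1
    by_cases hy : y = 0
    · simp [hy]
    · field_simp
  have hok : ∀ᵐ a ∂(volume.restrict (Set.Ioc 0 (2 * Real.pi))), MelOK fun y => c (xa a y) := by
    filter_upwards [hfin] with a ha
    have hm1 : Measurable fun y : ℝ => ‖c (xa a y)‖ ^ 2 / y ^ 2 :=
      ((hmx a).norm.pow_const 2).div (measurable_id.pow_const 2)
    have hsq' : IntegrableOn (fun y : ℝ => ‖c (xa a y)‖ ^ 2 / y ^ 2) (Set.Ioi 0) := by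
      refine ⟨hm1.aestronglyMeasurable, ?_⟩
      rw [hasFiniteIntegral_iff_ofReal (Eventually.of_forall fun y => by positivity), hkey]
      exact ENNReal.mul_lt_top ENNReal.ofReal_lt_top ha
    exact ⟨hmx a, hsq', B, fun y _ => hB _⟩
  refine ⟨hok, ?_⟩
  have h3 : ∫⁻ a in Set.Ioc 0 (2 * Real.pi), ∫⁻ κ : ℝ,
        ENNReal.ofReal (‖melL2 (fun y => c (xa a y)) κ‖ ^ 2) =
      ∫⁻ a in Set.Ioc 0 (2 * Real.pi), ENNReal.ofReal (4 * Real.pi) *
        ∫⁻ y in Set.Ioi (0 : ℝ),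
          ENNReal.ofReal (1 / (2 * y ^ 2)) * ENNReal.ofReal (‖c (xa a y)‖ ^ 2) := by
    refine lintegral_congr_ae ?_
    filter_upwards [hok] with a ha
    rw [← ofReal_integral_eq_lintegral_ofReal (integrable_melL2_sq ha.memLp)
      (Eventually.of_forall fun x => by positivity), integral_melL2_sq ha.memLp,
      ENNReal.ofReal_mul (by positivity),
      ofReal_integral_eq_lintegral_ofReal ha.sq (Eventually.of_forall fun x => by positivity),
      hkey, ← mul_assoc, ← ENNReal.ofReal_mul (by positivity)]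
    congr 2
    ring
  rw [h3, lintegral_const_mul' _ _ ENNReal.ofReal_ne_top, ← h1, h2,
    ← ENNReal.ofReal_mul (by positivity)]

end Pool.Agent.JO
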